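import Mathlib

set_option autoImplicit false

/-!
# Minimal strongly biconnected digraphs on `n` vertices have at most `2 (n - 1)` arcs

Arcs are a finite set of ordered pairs of vertices without loops.
-/

namespace Pool.Agent.Results.MP_5e4462_co.ArcBound

/-- The underlying simple graph of the digraph with arc set `E`. -/
def underlying {V : Type} (E : Finset (V × V)) : SimpleGraph V :=
  SimpleGraph.fromRel fun u w => (u, w) ∈ E

/-- The digraph with arc set `E` has no loops, is strongly connected, and its underlying graph has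
no articulation point. -/
def StronglyBiconnected {V : Type} (E : Finset (V × V)) : Prop :=
  (∀ v, (v, v) ∉ E) ∧ (∀ u v, Relation.ReflTransGen (fun a b => (a, b) ∈ E) u v) ∧
    ∀ x : V, ((underlying E).induce {x}ᶜ).Preconnected

/-- Strongly biconnected, and no arc can be removed. -/
def MinimalStronglyBiconnected {V : Type} [DecidableEq V] (E : Finset (V × V)) : Prop :=
  StronglyBiconnected E ∧ ∀ e ∈ E, ¬ StronglyBiconnected (E.erase e)

/-- Directed reachability inside an arc set. -/
abbrev Reach {V : Type} (F : Finset (V × V)) : V → V → Prop :=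
  Relation.ReflTransGen fun a b => (a, b) ∈ F

/-- One step in the underlying graph avoiding `z`. -/
def Step {V : Type} (F : Finset (V × V)) (z a b : V) : Prop :=
  a ≠ z ∧ b ≠ z ∧ ((a, b) ∈ F ∨ (b, a) ∈ F)

/-- Connected in the underlying graph minus `z`. -/
abbrev Conn {V : Type} (F : Finset (V × V)) (z : V) : V → V → Prop :=
  Relation.ReflTransGen (Step F z)

theorem Conn.symm {V : Type} {F : Finset (V × V)} {z a b : V} (h : Conn F z a b) :
    Conn F z b a := by
  induction h with
  | refl => exact Relation.ReflTransGen.refl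
  | tail _ h ih => exact Relation.ReflTransGen.head ⟨h.2.1, h.1, h.2.2.symm⟩ ih

theorem Conn.mono {V : Type} {F F' : Finset (V × V)} (hF : F ⊆ F') {z a b : V}
    (h : Conn F z a b) : Conn F' z a b := by
  induction h with
  | refl => exact Relation.ReflTransGen.refl
  | tail _ h ih => exact ih.tail ⟨h.1, h.2.1, h.2.2.imp (@hF _) (@hF _)⟩

theorem Reach.mono {V : Type} {F F' : Finset (V × V)} (hF : F ⊆ F') {a b : V}
    (h : Reach F a b) : Reach F' a b := by
  induction h with
  | refl => exact Relation.ReflTransGen.refl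
  | tail _ h ih => exact ih.tail (hF h)

variable {V : Type} [DecidableEq V]

/-- `Pth R a b W P`: a path from `a` to `b` with vertex set `W` and arc set `P`. -/
inductive Pth (R : V → V → Prop) : V → V → Finset V → Finset (V × V) → Prop
  | single (a : V) : Pth R a a {a} ∅
  | cons (a c b : V) (W : Finset V) (P : Finset (V × V)) : R a c → a ∉ W → Pth R c b W P →
      Pth R a b (insert a W) (insert (a, c) P)

namespace Pth

variable {R : V → V → Prop} {a b : V} {W : Finset V} {P : Finset (V × V)}

theorem left_mem (h : Pth R a b W P) : a ∈ W := by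
  cases h with
  | single => simp
  | cons => simp

theorem right_mem (h : Pth R a b W P) : b ∈ W := by
  induction h with
  | single => simp
  | cons a c b W P _ _ _ ih => exact Finset.mem_insert_of_mem ih

theorem card (h : Pth R a b W P) : P.card + 1 ≤ W.card := by
  induction h with
  | single => simp
  | cons a c b W P _ h2 _ ih =>
    rw [Finset.card_insert_of_notMem h2]
    have := Finset.card_insert_le (a, c) P
    omega

theorem sub {E : Finset (V × V)} (hR : ∀ a b, R a b → (a, b) ∈ E) (h : Pth R a b W P) :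
    P ⊆ E := by
  induction h with
  | single => simp
  | cons a c b W P h1 _ _ ih => exact Finset.insert_subset (hR _ _ h1) ih

theorem reach (h : Pth R a b W P) : ∀ w ∈ W, Reach P a w ∧ Reach P w b := by
  induction h with
  | single a =>
    intro w hw
    rw [Finset.mem_singleton] at hw
    subst hw
    exact ⟨Relation.ReflTransGen.refl, Relation.ReflTransGen.refl⟩
  | cons a c b W P h1 h2 h3 ih =>
    intro w hw
    have hac : (a, c) ∈ insert (a, c) P := Finset.mem_insert_self _ _
    have hsub : P ⊆ insert (a, c) P := Finset.subset_insert _ _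
    rcases Finset.mem_insert.1 hw with rfl | hw
    · exact ⟨Relation.ReflTransGen.refl,
        Relation.ReflTransGen.head hac ((ih _ h3.left_mem).2.mono hsub)⟩
    · exact ⟨Relation.ReflTransGen.head hac ((ih w hw).1.mono hsub), (ih w hw).2.mono hsub⟩

theorem conn_right (h : Pth R a b W P) : ∀ z, z ∉ W → ∀ w ∈ W, Conn P z w b := by
  induction h with
  | single a =>
    intro z _ w hw
    rw [Finset.mem_singleton] at hw
    subst hw
    exact Relation.ReflTransGen.refl
  | cons a c b W P h1 h2 h3 ih =>
    intro z hz w hw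
    rw [Finset.mem_insert, not_or] at hz
    have hsub : P ⊆ insert (a, c) P := Finset.subset_insert _ _
    rcases Finset.mem_insert.1 hw with rfl | hw
    · refine Relation.ReflTransGen.head ⟨fun h => hz.1 h.symm, fun h => hz.2 (h ▸ h3.left_mem),
        Or.inl (Finset.mem_insert_self _ _)⟩ ((ih z hz.2 _ h3.left_mem).mono hsub)
    · exact (ih z hz.2 w hw).mono hsub

theorem conn_or (h : Pth R a b W P) : ∀ z, ∀ w ∈ W, w ≠ z →
    (a ≠ z ∧ Conn P z w a) ∨ (b ≠ z ∧ Conn P z w b) := by
  induction h with
  | single a =>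
    intro z w hw hwz
    rw [Finset.mem_singleton] at hw
    subst hw
    exact Or.inl ⟨hwz, Relation.ReflTransGen.refl⟩
  | cons a c b W P h1 h2 h3 ih =>
    intro z w hw hwz
    have hsub : P ⊆ insert (a, c) P := Finset.subset_insert _ _
    rcases Finset.mem_insert.1 hw with rfl | hw
    · exact Or.inl ⟨hwz, Relation.ReflTransGen.refl⟩
    · rcases ih z w hw hwz with ⟨h4, h5⟩ | ⟨h4, h5⟩
      · by_cases haz : a = z
        · subst haz
          refine Or.inr ⟨fun h => h2 (h ▸ h3.right_mem), (h3.conn_right _ h2 w hw).mono hsub⟩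
        · exact Or.inl ⟨haz, (h5.mono hsub).tail
            ⟨h4, haz, Or.inr (Finset.mem_insert_self _ _)⟩⟩
      · exact Or.inr ⟨h4, h5.mono hsub⟩

theorem subpath (h : Pth R a b W P) : ∀ w ∈ W, ∃ W' P', Pth R w b W' P' := by
  induction h with
  | single a =>
    intro w hw
    rw [Finset.mem_singleton] at hw
    subst hw
    exact ⟨_, _, Pth.single _⟩
  | cons a c b W P h1 h2 h3 ih =>
    intro w hw
    rcases Finset.mem_insert.1 hw with rfl | hw
    · exact ⟨_, _, Pth.cons _ _ _ _ _ h1 h2 h3⟩
    · exact ih w hw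

theorem avoid {B : Finset V} (hR : ∀ a b, R a b → a ∉ B) (h : Pth R a b W P)
    (hb : b ∉ B) : ∀ w ∈ W, w ∉ B := by
  induction h with
  | single a =>
    intro w hw
    rw [Finset.mem_singleton] at hw
    subst hw
    exact hb
  | cons a c b W P h1 h2 h3 ih =>
    intro w hw
    rcases Finset.mem_insert.1 hw with rfl | hw
    · exact hR _ _ h1
    · exact ih hb w hw

theorem exists_of {R : V → V → Prop} {a b : V} (h : Relation.ReflTransGen R a b) :
    ∃ W P, Pth R a b W P := by
  induction h using Relation.ReflTransGen.head_induction_on with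
  | refl => exact ⟨_, _, Pth.single _⟩
  | @head a c hac _ ih =>
    obtain ⟨W, P, h⟩ := ih
    by_cases ha : a ∈ W
    · exact h.subpath a ha
    · exact ⟨_, _, Pth.cons _ _ _ _ _ hac ha h⟩

end Pth

/-- The partial subdigraphs built by ears. -/
structure Good (E : Finset (V × V)) (B : Finset V) (F : Finset (V × V)) : Prop where
  sub : F ⊆ E
  card : F.card + 2 ≤ 2 * B.card
  reach : ∀ u ∈ B, ∀ v ∈ B, Reach F u v
  conn : ∀ z, ∀ u ∈ B, ∀ v ∈ B, u ≠ z → v ≠ z → Conn F z u v

/-- Adding an ear. -/
theorem Good.ear {E F : Finset (V × V)} {B : Finset V} (hg : Good E B F) {x y a b : V}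
    {W : Finset V} {P : Finset (V × V)} (hx : x ∈ B) (hy : y ∈ B) (hxy : x ≠ y ∨ B = {x})
    (hxa : (x, a) ∈ E) (hby : (b, y) ∈ E) {R : V → V → Prop}
    (hp : Pth R a b W P) (hP : P ⊆ E) (hW : ∀ w ∈ W, w ∉ B) :
    Good E (B ∪ W) (F ∪ P ∪ {(x, a), (b, y)}) := by
  set F' := F ∪ P ∪ {(x, a), (b, y)} with hF'
  have s1 : F ⊆ F' := fun e he => by simp [hF', he]
  have s2 : P ⊆ F' := fun e he => by simp [hF', he]
  have s3 : (x, a) ∈ F' := by simp [hF']
  have s4 : (b, y) ∈ F' := by simp [hF']
  have haW := hp.left_mem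
  have hbW := hp.right_mem
  have haB := hW a haW
  have hbB := hW b hbW
  refine ⟨?_, ?_, ?_, ?_⟩
  · intro e he
    simp only [hF', Finset.mem_union, Finset.mem_insert, Finset.mem_singleton] at he
    rcases he with (h | h) | h | h
    · exact hg.sub h
    · exact hP h
    · exact h ▸ hxa
    · exact h ▸ hby
  · have h1 : F'.card ≤ F.card + P.card + 2 := by
      refine (Finset.card_union_le _ _).trans ?_
      have := Finset.card_union_le F P
      have h2 : ({(x, a), (b, y)} : Finset (V × V)).card ≤ 2 := Finset.card_le_two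
      omega
    have h2 : (B ∪ W).card = B.card + W.card :=
      Finset.card_union_of_disjoint (Finset.disjoint_right.2 hW)
    have h3 := hg.card
    have h4 := hp.card
    have h5 : 1 ≤ W.card := Finset.card_pos.2 ⟨a, haW⟩
    omega
  · -- everything reaches `x` and is reached from `x`
    have key : ∀ u ∈ B ∪ W, Reach F' u x ∧ Reach F' x u := by
      intro u hu
      rcases Finset.mem_union.1 hu with hu | hu
      · exact ⟨(hg.reach u hu x hx).mono s1, (hg.reach x hx u hu).mono s1⟩
      · have h1 := hp.reach u hu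
        refine ⟨?_, ?_⟩
        · exact ((h1.2.mono s2).tail s4).trans ((hg.reach y hy x hx).mono s1)
        · exact Relation.ReflTransGen.head s3 (h1.1.mono s2)
    intro u hu v hv
    exact (key u hu).1.trans (key v hv).2
  · intro z
    by_cases hB : ∃ c ∈ B, c ≠ z
    · obtain ⟨c, hc, hcz⟩ := hB
      have key : ∀ u ∈ B ∪ W, u ≠ z → Conn F' z u c := by
        intro u hu huz
        rcases Finset.mem_union.1 hu with hu | hu
        · exact (hg.conn z u hu c hc huz hcz).mono s1
        · by_cases hzx : x = z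
          · have hzW : z ∉ W := fun h => hW z h (hzx ▸ hx)
            have hyz : y ≠ z := by
              rcases hxy with h | h
              · intro h2; exact h (hzx.trans h2.symm)
              · rw [h, Finset.mem_singleton] at hc
                exact absurd (hc.trans hzx) hcz
            have h1 := (hp.conn_right z hzW u hu).mono s2
            refine (h1.tail ⟨fun h => hzW (h ▸ hbW), hyz, Or.inl s4⟩).trans ?_
            exact (hg.conn z y hy c hc hyz hcz).mono s1
          · by_cases hzy : y = z
            · have hzW : z ∉ W := fun h => hW z h (hzy ▸ hy)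
              have h1 := (hp.conn_right z hzW u hu).mono s2
              have h2 := ((hp.conn_right z hzW a haW).mono s2).symm
              refine ((h1.trans h2).tail ⟨fun h => hzW (h ▸ haW), hzx, Or.inr s3⟩).trans ?_
              exact (hg.conn z x hx c hc hzx hcz).mono s1
            · rcases hp.conn_or z u hu huz with ⟨h1, h2⟩ | ⟨h1, h2⟩
              · refine ((h2.mono s2).tail ⟨h1, hzx, Or.inr s3⟩).trans ?_
                exact (hg.conn z x hx c hc hzx hcz).mono s1
              · refine ((h2.mono s2).tail ⟨h1, hzy, Or.inl s4⟩).trans ?_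
                exact (hg.conn z y hy c hc hzy hcz).mono s1
      intro u hu v hv huz hvz
      exact (key u hu huz).trans (key v hv hvz).symm
    · push Not at hB
      have hzB : z ∈ B := hB x hx ▸ hx
      have hzW : z ∉ W := fun h => hW z h hzB
      have key : ∀ u ∈ B ∪ W, u ≠ z → Conn F' z u b := by
        intro u hu huz
        rcases Finset.mem_union.1 hu with hu | hu
        · exact absurd (hB u hu) huz
        · exact (hp.conn_right z hzW u hu).mono s2
      intro u hu v hv huz hvz
      exact (key u hu huz).trans (key v hv hvz).symm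

/-- Entering the complement of `B`. -/
theorem entry {E : Finset (V × V)} {B : Finset V} {x u : V} (h : Reach E x u) (hx : x ∈ B)
    (hu : u ∉ B) : ∃ x' ∈ B, ∃ a, a ∉ B ∧ (x', a) ∈ E ∧
      Relation.ReflTransGen (fun p q => (p, q) ∈ E ∧ p ∉ B ∧ q ∉ B) a u := by
  induction h with
  | refl => exact absurd hx hu
  | @tail c u _ hcu ih =>
    by_cases hc : c ∈ B
    · exact ⟨c, hc, u, hu, hcu, Relation.ReflTransGen.refl⟩
    · obtain ⟨x', hx', a, ha, h1, h2⟩ := ih hc
      exact ⟨x', hx', a, ha, h1, h2.tail ⟨hcu, hc, hu⟩⟩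

/-- Leaving the complement of `B`. -/
theorem exit {E : Finset (V × V)} {B : Finset V} {u y : V} (h : Reach E u y) (hy : y ∈ B)
    (hu : u ∉ B) : ∃ y' ∈ B, ∃ b, b ∉ B ∧ (b, y') ∈ E ∧
      Relation.ReflTransGen (fun p q => (p, q) ∈ E ∧ p ∉ B ∧ q ∉ B) u b := by
  induction h using Relation.ReflTransGen.head_induction_on with
  | refl => exact absurd hy hu
  | @head u c huc _ ih =>
    by_cases hc : c ∈ B
    · exact ⟨c, hc, u, hu, huc, Relation.ReflTransGen.refl⟩
    · obtain ⟨y', hy', b, hb, h1, h2⟩ := ih hc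
      exact ⟨y', hy', b, hb, h1, Relation.ReflTransGen.head ⟨huc, hu, hc⟩ h2⟩

/-- An ear with distinct ends exists unless `B` is a single vertex or everything. -/
theorem exists_ear {E : Finset (V × V)} (hs : ∀ u v, Reach E u v)
    (hc : ∀ z u v, u ≠ z → v ≠ z → Conn E z u v) {B : Finset V} {x₀ u₀ : V} (hx₀ : x₀ ∈ B)
    (hu₀ : u₀ ∉ B) : ∃ x ∈ B, ∃ y ∈ B, (x ≠ y ∨ B = {x}) ∧ ∃ a b, a ∉ B ∧ b ∉ B ∧ (x, a) ∈ E ∧
      (b, y) ∈ E ∧ Relation.ReflTransGen (fun p q => (p, q) ∈ E ∧ p ∉ B ∧ q ∉ B) a b := by
  by_contra hcon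
  -- the entry and exit points of every outside vertex coincide
  have h1 : ∀ u, u ∉ B → ∀ x ∈ B, ∀ y ∈ B, ∀ a, a ∉ B → ∀ b, b ∉ B → (x, a) ∈ E →
      (b, y) ∈ E → Relation.ReflTransGen (fun p q => (p, q) ∈ E ∧ p ∉ B ∧ q ∉ B) a u →
      Relation.ReflTransGen (fun p q => (p, q) ∈ E ∧ p ∉ B ∧ q ∉ B) u b → x = y ∧ B ≠ {x} := by
    intro u hu x hx y hy a ha b hb hxa hby hau hub
    by_contra hne
    apply hcon
    refine ⟨x, hx, y, hy, ?_, a, b, ha, hb, hxa, hby, hau.trans hub⟩
    by_contra h
    push Not at h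
    exact hne h
  obtain ⟨x, hx, a, ha, hxa, hau⟩ := entry (hs x₀ u₀) hx₀ hu₀
  obtain ⟨y, hy, b, hb, hby, hub⟩ := exit (hs u₀ x₀) hx₀ hu₀
  obtain ⟨hxy, hBx⟩ := h1 u₀ hu₀ x hx y hy a ha b hb hxa hby hau hub
  -- another vertex of `B`
  obtain ⟨c, hcB, hcx⟩ : ∃ c ∈ B, c ≠ x := by
    by_contra h
    push Not at h
    exact hBx (Finset.eq_singleton_iff_unique_mem.2 ⟨hx, h⟩)
  -- the set of outside vertices whose entry point is `x`
  have key : ∀ v, Conn E x u₀ v → v ∉ B ∧ ∃ a, a ∉ B ∧ (x, a) ∈ E ∧
      Relation.ReflTransGen (fun p q => (p, q) ∈ E ∧ p ∉ B ∧ q ∉ B) a v := by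
    intro v hv
    induction hv with
    | refl => exact ⟨hu₀, a, ha, hxa, hau⟩
    | @tail v w _ hvw ih =>
      obtain ⟨hvB, a', ha', hxa', hav⟩ := ih
      obtain ⟨hvx, hwx, hor⟩ := hvw
      obtain ⟨y', hy', b', hb', hby', hvb⟩ := exit (hs v x) hx hvB
      have hy'x : x = y' := (h1 v hvB x hx y' hy' a' ha' b' hb' hxa' hby' hav hvb).1
      rcases hor with hor | hor
      · -- arc `v → w`
        by_cases hwB : w ∈ B
        · have := (h1 v hvB x hx w hwB a' ha' v hvB hxa' hor hav
            Relation.ReflTransGen.refl).1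
          exact absurd this.symm hwx
        · exact ⟨hwB, a', ha', hxa', hav.tail ⟨hor, hvB, hwB⟩⟩
      · -- arc `w → v`
        by_cases hwB : w ∈ B
        · have := (h1 v hvB w hwB y' hy' v hvB b' hb' hor hby'
            Relation.ReflTransGen.refl hvb).1
          exact absurd (this.trans hy'x.symm) hwx
        · obtain ⟨x'', hx'', a'', ha'', hxa'', haw⟩ := entry (hs x w) hx hwB
          have := (h1 v hvB x'' hx'' y' hy' a'' ha'' b' hb' hxa'' hby'
            (haw.tail ⟨hor, hwB, hvB⟩) hvb).1
          have e : x'' = x := this.trans hy'x.symm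
          subst e
          exact ⟨hwB, a'', ha'', hxa'', haw⟩
  have hux : u₀ ≠ x := fun h => hu₀ (h ▸ hx)
  exact (key c (hc x u₀ c hux hcx)).1 hcB

/-- Ears can be added until everything is covered. -/
theorem exists_good {E : Finset (V × V)} [Fintype V] (hs : ∀ u v, Reach E u v)
    (hc : ∀ z u v, u ≠ z → v ≠ z → Conn E z u v) :
    ∀ (n : ℕ) (B : Finset V) (F : Finset (V × V)), B.Nonempty → Good E B F →
      Fintype.card V ≤ B.card + n → ∃ F', Good E Finset.univ F' := by
  intro n
  induction n with
  | zero =>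
    intro B F _ hg hn
    have : B = Finset.univ := Finset.eq_univ_of_card B
      (le_antisymm (Finset.card_le_univ B) (by simpa using hn))
    exact ⟨F, this ▸ hg⟩
  | succ n ih =>
    intro B F hne hg hn
    by_cases hB : B = Finset.univ
    · exact ⟨F, hB ▸ hg⟩
    · obtain ⟨x₀, hx₀⟩ := hne
      obtain ⟨u₀, hu₀⟩ : ∃ u, u ∉ B := by
        by_contra h
        push Not at h
        exact hB (Finset.eq_univ_iff_forall.2 h)
      obtain ⟨x, hx, y, hy, hxy, a, b, ha, hb, hxa, hby, hab⟩ := exists_ear hs hc hx₀ hu₀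
      obtain ⟨W, P, hp⟩ := Pth.exists_of hab
      have hW := hp.avoid (B := B) (fun _ _ h => h.2.1) hb
      have hg' := hg.ear hx hy hxy hxa hby hp (hp.sub fun _ _ h => h.1) hW
      refine ih _ _ ⟨x₀, Finset.mem_union_left _ hx₀⟩ hg' ?_
      have h2 : (B ∪ W).card = B.card + W.card :=
        Finset.card_union_of_disjoint (Finset.disjoint_right.2 hW)
      have h5 : 1 ≤ W.card := Finset.card_pos.2 ⟨a, hp.left_mem⟩
      omega

theorem conn_iff {E : Finset (V × V)} :
    (∀ x : V, ((underlying E).induce {x}ᶜ).Preconnected) ↔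
      ∀ z u v, u ≠ z → v ≠ z → Conn E z u v := by
  constructor
  · intro h z u v hu hv
    obtain ⟨w⟩ := h z ⟨u, hu⟩ ⟨v, hv⟩
    have : ∀ (a b : ({z}ᶜ : Set V)), ((underlying E).induce {z}ᶜ).Walk a b →
        Conn E z a b := by
      intro a b w
      induction w with
      | nil => exact Relation.ReflTransGen.refl
      | @cons a c b hac _ ih =>
        refine Relation.ReflTransGen.head ⟨a.2, c.2, ?_⟩ ih
        have h2 : (underlying E).Adj a c := hac
        rw [underlying, SimpleGraph.fromRel_adj] at h2
        exact h2.2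
    exact this _ _ w
  · intro h z u v
    have h1 := h z u v u.2 v.2
    have : ∀ (a b : V), Conn E z a b → ∀ (ha : a ∈ ({z}ᶜ : Set V)) (hb : b ∈ ({z}ᶜ : Set V)),
        ((underlying E).induce {z}ᶜ).Reachable ⟨a, ha⟩ ⟨b, hb⟩ := by
      intro a b hab
      induction hab with
      | refl => intro _ _; exact SimpleGraph.Reachable.refl _
      | @tail c d _ hcd ih =>
        intro ha hd
        have hc : c ∈ ({z}ᶜ : Set V) := hcd.1
        by_cases hcd' : c = d
        · subst hcd'
          exact ih ha hd
        · refine (ih ha hc).trans (SimpleGraph.Adj.reachable ?_)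
          show (underlying E).Adj c d
          rw [underlying, SimpleGraph.fromRel_adj]
          exact ⟨hcd', hcd.2.2⟩
    exact this u v h1 u.2 v.2

/-- **Positive answer to Q1**, with the bound `2 (n - 1)`. -/
theorem result {V : Type} [Fintype V] [DecidableEq V] (E : Finset (V × V))
    (hE : MinimalStronglyBiconnected E) : E.card ≤ 2 * (Fintype.card V - 1) := by
  obtain ⟨⟨hloop, hs, hbi⟩, hmin⟩ := hE
  have hc := conn_iff.1 hbi
  rcases isEmpty_or_nonempty V with hV | ⟨⟨v⟩⟩
  · have : E = ∅ := Finset.eq_empty_of_isEmpty E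
    simp [this]
  have hg0 : Good E {v} ∅ := by
    refine ⟨by simp, by simp, ?_, ?_⟩
    · intro u hu w hw
      rw [Finset.mem_singleton] at hu hw
      rw [hu, hw]
    · intro z u hu w hw _ _
      rw [Finset.mem_singleton] at hu hw
      rw [hu, hw]
  obtain ⟨F, hg⟩ := exists_good hs hc (Fintype.card V) {v} ∅ ⟨v, by simp⟩ hg0 (by simp)
  have hEF : E ⊆ F := by
    by_contra hne
    rw [Finset.subset_iff] at hne
    push Not at hne
    obtain ⟨e, he, heF⟩ := hne
    have hsub : F ⊆ E.erase e := by
      intro f hf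
      exact Finset.mem_erase.2 ⟨fun h => heF (h ▸ hf), hg.sub hf⟩
    apply hmin e he
    refine ⟨fun v h => hloop v (Finset.mem_of_mem_erase h), fun u v => ?_, ?_⟩
    · exact (hg.reach u (Finset.mem_univ _) v (Finset.mem_univ _)).mono hsub
    · rw [conn_iff]
      intro z u w hu hw
      exact (hg.conn z u (Finset.mem_univ _) w (Finset.mem_univ _) hu hw).mono hsub
  have h1 := Finset.card_le_card hEF
  have h2 := hg.card
  rw [Finset.card_univ] at h2
  omega

end Pool.Agent.Results.MP_5e4462_co.ArcBound
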